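import Mathlib
import Pool.Agent.Lib.MP_b40da5_nt_h57.Tree

/-!
# No coincidences among the quadratic and cubic families of exceptional pairs

`2 y²`, `4 y³ - y`, `4 y³ ∓ 4 y² + 3 y ∓ 1` never take the same value.
-/

set_option autoImplicit false

namespace Pool.Agent.Lib.MP_b40da5_nt.Tree

/-- interleaving of the cubic families -/
lemma cubic_lt {y z : ℤ} (hy : 1 ≤ y) (hyz : y < z) :
    4 * y ^ 3 + 4 * y ^ 2 + 3 * y + 1 < 4 * z ^ 3 - 4 * z ^ 2 + 3 * z - 1 := by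
  obtain ⟨w, hw⟩ : ∃ w, w = z - (y + 1) := ⟨_, rfl⟩
  have hw0 : 0 ≤ w := by omega
  obtain rfl : z = y + 1 + w := by omega
  have e : 4 * (y + 1 + w) ^ 3 - 4 * (y + 1 + w) ^ 2 + 3 * (y + 1 + w) - 1
      - (4 * y ^ 3 + 4 * y ^ 2 + 3 * y + 1)
      = 4 * y ^ 2 + 4 * y + 1 + 4 * w ^ 3 + 12 * (y * w ^ 2) + 8 * w ^ 2
        + 12 * (y ^ 2 * w) + 16 * (y * w) + 7 * w := by ring
  have hy0 : 0 ≤ y := by omega
  have h1 : 0 ≤ w ^ 3 := by positivity
  have h2 : 0 ≤ y * w ^ 2 := by positivity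
  have h3 : 0 ≤ y ^ 2 * w := by positivity
  have h4 : 0 ≤ y * w := by positivity
  have h5 : 0 ≤ y ^ 2 := by positivity
  have h6 : 0 ≤ w ^ 2 := by positivity
  linarith

/-- a number strictly between two consecutive squares is not a square -/
lemma not_between {a u : ℤ} (ha : 4 ≤ a) : u ^ 2 ≠ a ^ 2 + 7 := by
  intro h
  have h1 : a < |u| := by
    by_contra hcon
    push Not at hcon
    have : |u| ^ 2 ≤ a ^ 2 := by gcongr
    rw [sq_abs] at this
    omega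
  have h2 : (a + 1) ^ 2 ≤ |u| ^ 2 := by
    have : a + 1 ≤ |u| := h1
    gcongr
  rw [sq_abs, h] at h2
  nlinarith

lemma no_A {y s : ℤ} (hy : 1 ≤ y) : 2 * s ^ 2 ≠ 4 * y ^ 3 - y := by
  intro h
  have hc : IsCoprime (4 * y ^ 2 - 1) (2 * y) := ⟨-1, 2 * y, by ring⟩
  obtain ⟨w, hw⟩ := Int.sq_of_isCoprime hc
    (show (4 * y ^ 2 - 1) * (2 * y) = (2 * s) ^ 2 by linarith)
  rcases hw with hw | hw
  · have h1 : w ^ 2 % 4 = 3 := by omega
    rcases Int.even_or_odd' w with ⟨c, hc | hc⟩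
    · rw [hc, show (2 * c) ^ 2 = 4 * c ^ 2 by ring] at h1; omega
    · rw [hc, show (2 * c + 1) ^ 2 = 4 * (c ^ 2 + c) + 1 by ring] at h1; omega
  · nlinarith [sq_nonneg w]

lemma no_Tm {y s : ℤ} (hy : 2 ≤ y) : 2 * s ^ 2 ≠ 4 * y ^ 3 - 4 * y ^ 2 + 3 * y - 1 := by
  intro h
  have hc : IsCoprime (2 * (2 * y ^ 2 - y + 1)) (2 * y - 1) :=
    ⟨-(y - 1), 1 + 2 * y * (y - 1), by ring⟩
  obtain ⟨w, hw⟩ := Int.sq_of_isCoprime hc
    (show (2 * (2 * y ^ 2 - y + 1)) * (2 * y - 1) = (2 * s) ^ 2 by linarith)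
  rcases hw with hw | hw
  · exact not_between (a := 4 * y - 1) (u := 2 * w) (by omega) (by linarith)
  · nlinarith [sq_nonneg w]

lemma no_Tp {y s : ℤ} (hy : 1 ≤ y) : 2 * s ^ 2 ≠ 4 * y ^ 3 + 4 * y ^ 2 + 3 * y + 1 := by
  intro h
  have hc : IsCoprime (2 * (2 * y ^ 2 + y + 1)) (2 * y + 1) :=
    ⟨-y, 1 + 2 * y ^ 2, by ring⟩
  obtain ⟨w, hw⟩ := Int.sq_of_isCoprime hc
    (show (2 * (2 * y ^ 2 + y + 1)) * (2 * y + 1) = (2 * s) ^ 2 by linarith)
  rcases hw with hw | hw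
  · exact not_between (a := 4 * y + 1) (u := 2 * w) (by omega) (by linarith)
  · nlinarith [sq_nonneg w]

/-- the classification of a low pair: `y1` and `k` in terms of a parameter -/
lemma low_cases {y1 k X1 : ℤ} (h1 : Exc (y1, k, X1))
    (c1 : (∃ y, (y1, k, X1) = rt y) ∨ (∃ y, (y1, k, X1) = cA (rt y)) ∨
      (∃ y m, (m = y + 1 ∨ m = y - 1) ∧ (y1, k, X1) = tt y m)) :
    (1 ≤ y1 ∧ k = 2 * y1 ^ 2) ∨
      (∃ y, 1 ≤ y ∧ y1 = 2 * y ^ 2 ∧ k = 4 * y ^ 3 - y) ∨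
      (1 ≤ y1 ∧ k = 4 * y1 ^ 3 + 4 * y1 ^ 2 + 3 * y1 + 1) ∨
      (2 ≤ y1 ∧ k = 4 * y1 ^ 3 - 4 * y1 ^ 2 + 3 * y1 - 1) := by
  obtain ⟨g1, g2, g3, g4⟩ := h1
  simp only at g1 g2 g3 g4
  rcases c1 with ⟨y, hy⟩ | ⟨y, hy⟩ | ⟨y, m, hm, hy⟩
  · left
    simp only [rt, Prod.mk.injEq] at hy
    obtain ⟨a1, a2, a3⟩ := hy
    subst a1
    exact ⟨g1, a2⟩
  · right; left
    simp only [rt, cA, Prod.mk.injEq] at hy
    obtain ⟨a1, a2, a3⟩ := hy
    exact ⟨y, by omega, a1, by rw [a2]; ring⟩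
  · simp only [tt, Prod.mk.injEq] at hy
    obtain ⟨a1, a2, a3⟩ := hy
    subst a1
    rcases hm with hm | hm
    · right; right; left
      refine ⟨g1, ?_⟩
      rw [a2, hm]; ring
    · right; right; right
      refine ⟨?_, ?_⟩
      · by_contra hcon
        have : y1 = 1 := by omega
        subst this
        rw [hm] at a3
        norm_num at a3
        omega
      · rw [a2, hm]; ring

theorem coincide {y1 y2 k X1 X2 : ℤ} (h1 : Exc (y1, k, X1)) (h2 : Exc (y2, k, X2))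
    (c1 : (∃ y, (y1, k, X1) = rt y) ∨ (∃ y, (y1, k, X1) = cA (rt y)) ∨
      (∃ y m, (m = y + 1 ∨ m = y - 1) ∧ (y1, k, X1) = tt y m))
    (c2 : (∃ y, (y2, k, X2) = rt y) ∨ (∃ y, (y2, k, X2) = cA (rt y)) ∨
      (∃ y m, (m = y + 1 ∨ m = y - 1) ∧ (y2, k, X2) = tt y m)) : y1 = y2 := by
  have key : ∀ {y z : ℤ}, 1 ≤ y → 1 ≤ z → ∀ {K : ℤ},
      4 * y ^ 3 - 4 * y ^ 2 + 3 * y - 1 ≤ K → K ≤ 4 * y ^ 3 + 4 * y ^ 2 + 3 * y + 1 →
      4 * z ^ 3 - 4 * z ^ 2 + 3 * z - 1 ≤ K → K ≤ 4 * z ^ 3 + 4 * z ^ 2 + 3 * z + 1 → y = z := by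
    intro y z hy hz K a1 a2 a3 a4
    rcases lt_trichotomy y z with h | h | h
    · have := cubic_lt hy h
      omega
    · exact h
    · have := cubic_lt hz h
      omega
  rcases low_cases h1 c1 with ⟨p1, p2⟩ | ⟨y, p1, p2, p3⟩ | ⟨p1, p2⟩ | ⟨p1, p2⟩ <;>
  rcases low_cases h2 c2 with ⟨q1, q2⟩ | ⟨z, q1, q2, q3⟩ | ⟨q1, q2⟩ | ⟨q1, q2⟩
  · have h3 : y1 ^ 2 = y2 ^ 2 := by linarith
    have h4 := (sq_eq_sq₀ (by omega) (by omega)).mp h3
    exact h4
  · exact absurd (p2.symm.trans q3) (no_A q1)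
  · exact absurd (p2.symm.trans q2) (no_Tp q1)
  · exact absurd (p2.symm.trans q2) (no_Tm q1)
  · exact absurd (q2.symm.trans p3) (no_A p1)
  · have h3 : y = z := by
      apply key (K := k) p1 q1
      · nlinarith
      · nlinarith
      · nlinarith
      · nlinarith
    rw [p2, q2, h3]
  · exfalso
    have h3 : y = y2 := by
      apply key (K := k) p1 q1
      · nlinarith
      · nlinarith
      · nlinarith
      · nlinarith
    subst h3
    nlinarith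
  · exfalso
    have h3 : y = y2 := by
      apply key (K := k) p1 (by omega)
      · nlinarith
      · nlinarith
      · nlinarith
      · nlinarith
    subst h3
    nlinarith
  · exact absurd (q2.symm.trans p2) (no_Tp p1)
  · exfalso
    have h3 : y1 = z := by
      apply key (K := k) p1 q1
      · nlinarith
      · nlinarith
      · nlinarith
      · nlinarith
    subst h3
    nlinarith
  · apply key (K := k) p1 q1
    · nlinarith
    · nlinarith
    · nlinarith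
    · nlinarith
  · apply key (K := k) p1 (by omega)
    · nlinarith
    · nlinarith
    · nlinarith
    · nlinarith
  · exact absurd (q2.symm.trans p2) (no_Tm p1)
  · exfalso
    have h3 : y1 = z := by
      apply key (K := k) (by omega) q1
      · nlinarith
      · nlinarith
      · nlinarith
      · nlinarith
    subst h3
    nlinarith
  · apply key (K := k) (by omega) q1
    · nlinarith
    · nlinarith
    · nlinarith
    · nlinarith
  · apply key (K := k) (by omega) (by omega)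
    · nlinarith
    · nlinarith
    · nlinarith
    · nlinarith

end Pool.Agent.Lib.MP_b40da5_nt.Tree
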